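import Pool.Agent.H68.TG.Targets

/-!
# De Mol's tag system (problem MP_c95a35_lc): row FNZ, the words p 0^n v
-/

set_option autoImplicit false

open List Pool.Agent.H68.TG

namespace Pool.Agent.H99.TG

theorem fnz_comp {w : List (Fin 3)} {k : ℕ} {L : ℝ} (h : Red (step^[k] w) L) : Red w L := by
  obtain ⟨j, h1, h2⟩ := h
  refine ⟨j + k, ?_, ?_⟩
  · rw [Function.iterate_add_apply]
    exact h1
  · rw [Function.iterate_add_apply]
    exact h2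

theorem fnz_mono {w : List (Fin 3)} {L L' : ℝ} (h : Red w L) (hL : L ≤ L') : Red w L' := by
  obtain ⟨j, h1, h2⟩ := h
  exact ⟨j, h1, h2.trans hL⟩

theorem fnz_small (N : ℕ) (hN : N < 2 ^ 100) :
    (N : ℝ) ≤ 2 * (N : ℝ) ^ (299 / 300 : ℝ) := by
  rcases Nat.eq_zero_or_pos N with h0 | h0
  · subst h0
    rw [Nat.cast_zero]
    positivity
  · have hN0 : (0 : ℝ) < N := by exact_mod_cast h0
    have e : (N : ℝ) = (N : ℝ) ^ (1 / 300 : ℝ) * (N : ℝ) ^ (299 / 300 : ℝ) := by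
      rw [← Real.rpow_add hN0]
      norm_num
    have h1 : (N : ℝ) ^ (1 / 300 : ℝ) ≤ 2 := by
      have h2 : (N : ℝ) ≤ (2 : ℝ) ^ (100 : ℝ) := by
        have : (N : ℝ) < ((2 ^ 100 : ℕ) : ℝ) := by exact_mod_cast hN
        have e2 : ((2 ^ 100 : ℕ) : ℝ) = (2 : ℝ) ^ (100 : ℝ) := by
          rw [Nat.cast_pow, Nat.cast_ofNat]
          norm_num
        rw [← e2]
        exact this.le
      calc (N : ℝ) ^ (1 / 300 : ℝ) ≤ ((2 : ℝ) ^ (100 : ℝ)) ^ (1 / 300 : ℝ) :=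
            Real.rpow_le_rpow hN0.le h2 (by norm_num)
        _ = (2 : ℝ) ^ (100 * (1 / 300) : ℝ) := by rw [← Real.rpow_mul (by norm_num)]
        _ ≤ (2 : ℝ) ^ (1 : ℝ) := Real.rpow_le_rpow_of_exponent_le (by norm_num) (by norm_num)
        _ = 2 := Real.rpow_one 2
    calc (N : ℝ) = (N : ℝ) ^ (1 / 300 : ℝ) * (N : ℝ) ^ (299 / 300 : ℝ) := e
      _ ≤ 2 * (N : ℝ) ^ (299 / 300 : ℝ) :=
        mul_le_mul_of_nonneg_right h1 (by positivity)

theorem fnz_large (N : ℕ) (hN : 2 ^ 100 ≤ N) :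
    8 * (N : ℝ) ^ (23 / 25 : ℝ) ≤ (N : ℝ) ^ (19 / 20 : ℝ) := by
  have h0 : (0 : ℝ) < N := by
    have : 0 < N := lt_of_lt_of_le (by positivity) hN
    exact_mod_cast this
  have e : (N : ℝ) ^ (19 / 20 : ℝ) = (N : ℝ) ^ (3 / 100 : ℝ) * (N : ℝ) ^ (23 / 25 : ℝ) := by
    rw [← Real.rpow_add h0]
    norm_num
  have h2 : (2 : ℝ) ^ (100 : ℝ) ≤ N := by
    have : ((2 ^ 100 : ℕ) : ℝ) ≤ (N : ℝ) := by exact_mod_cast hN
    have e2 : ((2 ^ 100 : ℕ) : ℝ) = (2 : ℝ) ^ (100 : ℝ) := by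
      rw [Nat.cast_pow, Nat.cast_ofNat]
      norm_num
    rw [← e2]
    exact this
  have h1 : 8 ≤ (N : ℝ) ^ (3 / 100 : ℝ) := by
    calc (8 : ℝ) = (2 : ℝ) ^ (3 : ℝ) := by norm_num
      _ = (2 : ℝ) ^ (100 * (3 / 100) : ℝ) := by norm_num
      _ = ((2 : ℝ) ^ (100 : ℝ)) ^ (3 / 100 : ℝ) := by rw [← Real.rpow_mul (by norm_num)]
      _ ≤ (N : ℝ) ^ (3 / 100 : ℝ) := Real.rpow_le_rpow (by positivity) h2 (by norm_num)
  rw [e]
  exact mul_le_mul_of_nonneg_right h1 (by positivity)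

theorem fnz_class (h1 : T_NZF) (h2 : T_CTN) (h3 : T_SHW) (p v : List (Fin 3)) (N : ℕ)
    (hN : 2 ^ 100 ≤ N) (c : ℕ) (hc : c < 2) : ∃ E : Set ℕ, E.Finite ∧
    ((E.ncard : ℕ) : ℝ) ≤ (108 * (p.length + v.length) + 72) * (N : ℝ) ^ (299 / 300 : ℝ) ∧
    ∀ i : ℕ, i < N → ¬ Red (p ++ replicate (2 * i + c) 0 ++ v) ((N : ℝ) ^ (19 / 20 : ℝ)) →
      i ∈ E := by
  obtain ⟨s, m, r, V, hm, hm3, hr3, hV, hk⟩ := h1 p v c hc
  have hN1 : 1 ≤ N := le_trans (Nat.one_le_two_pow) hN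
  have hl := fnz_large N hN
  have hN1' : (1 : ℝ) ≤ N := by exact_mod_cast hN1
  refine ⟨{i : ℕ | i < N ∧
    ¬ Red (tape (cfg (s, m * i + r, one V))) (8 * (N : ℝ) ^ (23 / 25 : ℝ))}, ?_, ?_, ?_⟩
  · exact (Set.finite_lt_nat N).subset (fun i hi => hi.1)
  · refine (h2 s m r V N hm hm3 hr3 hN1).trans ?_
    apply mul_le_mul_of_nonneg_right _ (by positivity)
    have hV' : (V.length : ℝ) ≤ 27 * (p.length + v.length) := by exact_mod_cast hV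
    linarith
  · intro i hi hn
    refine ⟨hi, fun hR => hn ?_⟩
    obtain ⟨k, hk | hk⟩ := hk i
    · rw [← hk] at hR
      exact fnz_mono (fnz_comp hR) hl
    · have h5 := fnz_comp (h3 _ hk)
      exact fnz_mono h5 (Real.one_le_rpow hN1' (by norm_num))

theorem pf_FNZ (h1 : T_NZF) (h2 : T_CTN) (h3 : T_SHW) : T_FNZ := by
  intro p v N
  have hfin : {n : ℕ | n < N ∧ ¬ Red (p ++ replicate n 0 ++ v)
      ((N : ℝ) ^ (19 / 20 : ℝ))}.Finite := (Set.finite_lt_nat N).subset (fun i hi => hi.1)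
  have hp0 : (0 : ℝ) ≤ (p.length : ℝ) := Nat.cast_nonneg _
  have hv0 : (0 : ℝ) ≤ (v.length : ℝ) := Nat.cast_nonneg _
  have hP : (0 : ℝ) ≤ (N : ℝ) ^ (299 / 300 : ℝ) := by positivity
  rcases Nat.lt_or_ge N (2 ^ 100) with hlt | hge
  · have hc : ({n : ℕ | n < N ∧ ¬ Red (p ++ replicate n 0 ++ v)
        ((N : ℝ) ^ (19 / 20 : ℝ))}.ncard) ≤ N := by
      have h4 := Set.ncard_le_ncard (s := {n : ℕ | n < N ∧ ¬ Red (p ++ replicate n 0 ++ v)
        ((N : ℝ) ^ (19 / 20 : ℝ))}) (t := Set.Iio N) (fun i hi => hi.1) (Set.finite_lt_nat N)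
      rwa [← Finset.coe_range, Set.ncard_coe_finset, Finset.card_range] at h4
    have hc' : (({n : ℕ | n < N ∧ ¬ Red (p ++ replicate n 0 ++ v)
        ((N : ℝ) ^ (19 / 20 : ℝ))}.ncard : ℕ) : ℝ) ≤ N := by exact_mod_cast hc
    refine hc'.trans ((fnz_small N hlt).trans ?_)
    apply mul_le_mul_of_nonneg_right _ hP
    linarith
  · obtain ⟨E0, f0, c0, m0⟩ := fnz_class h1 h2 h3 p v N hge 0 (by norm_num)
    obtain ⟨E1, f1, c1, m1⟩ := fnz_class h1 h2 h3 p v N hge 1 (by norm_num)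
    have hsub : {n : ℕ | n < N ∧ ¬ Red (p ++ replicate n 0 ++ v)
        ((N : ℝ) ^ (19 / 20 : ℝ))} ⊆ (fun i => 2 * i + 0) '' E0 ∪ (fun i => 2 * i + 1) '' E1 := by
      rintro n ⟨hn, hR⟩
      obtain ⟨i, hi | hi⟩ : ∃ i, n = 2 * i + 0 ∨ n = 2 * i + 1 := ⟨n / 2, by omega⟩
      · left
        rw [hi] at hR
        exact ⟨i, m0 i (by omega) hR, hi.symm⟩
      · right
        rw [hi] at hR
        exact ⟨i, m1 i (by omega) hR, hi.symm⟩
    have hcard : {n : ℕ | n < N ∧ ¬ Red (p ++ replicate n 0 ++ v)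
        ((N : ℝ) ^ (19 / 20 : ℝ))}.ncard ≤ E0.ncard + E1.ncard := by
      refine (Set.ncard_le_ncard hsub ((f0.image _).union (f1.image _))).trans ?_
      refine (Set.ncard_union_le _ _).trans ?_
      exact Nat.add_le_add (Set.ncard_image_le f0) (Set.ncard_image_le f1)
    have hcard' : (({n : ℕ | n < N ∧ ¬ Red (p ++ replicate n 0 ++ v)
        ((N : ℝ) ^ (19 / 20 : ℝ))}.ncard : ℕ) : ℝ) ≤ (E0.ncard : ℝ) + E1.ncard := by
      exact_mod_cast hcard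
    refine hcard'.trans ((add_le_add c0 c1).trans ?_)
    rw [← add_mul]
    apply mul_le_mul_of_nonneg_right _ hP
    linarith

end Pool.Agent.H99.TG
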