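import Pool.Agent.H68.TG.Targets

/-!
# De Mol's tag system (problem MP_c95a35_lc): row MAB, the blocks of zeros die
-/

set_option autoImplicit false

open List Pool.Agent.H68.TG

namespace Pool.Agent.H99.TG

theorem mab_sq (A B C : ℝ) (hA : 0 ≤ A) (hB : 0 ≤ B) (hC : 0 ≤ C)
    (h : (27321 / 10000) * A + (15774 / 10000) * B ≤ (39800 / 10000) * C) :
    Real.sqrt A + Real.sqrt B ≤ (399 / 200) * Real.sqrt C := by
  have ha := Real.sq_sqrt hA
  have hb := Real.sq_sqrt hB
  have hc := Real.sq_sqrt hC
  have ha0 := Real.sqrt_nonneg A
  have hb0 := Real.sqrt_nonneg B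
  have hc0 := Real.sqrt_nonneg C
  have key : (Real.sqrt A + Real.sqrt B) ^ 2 ≤ ((399 / 200) * Real.sqrt C) ^ 2 := by
    have h1 := sq_nonneg ((17321 / 10000) * Real.sqrt A - Real.sqrt B)
    nlinarith
  have := abs_le_of_sq_le_sq key (by positivity)
  exact (abs_le.mp this).2

theorem mab_num (u : ℕ) (c : Bool) :
    Real.sqrt (t3 c (hf false u)) + Real.sqrt (t3 (!c) (hf true u)) ≤
      (399 / 200) * Real.sqrt u := by
  obtain ⟨w, hw | hw⟩ : ∃ w, u = 2 * w ∨ u = 2 * w + 1 := ⟨u / 2, by omega⟩
  · have h1 : hf false u = w := by simp [hf]; omega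
    have h2 : hf true u = w := by simp [hf]; omega
    have hw0 : (0 : ℝ) ≤ w := Nat.cast_nonneg w
    rw [h1, h2, hw]
    cases c
    · have := mab_sq (w : ℝ) (3 * w) (2 * w) hw0 (by positivity) (by positivity) (by nlinarith)
      simpa [t3] using this
    · have := mab_sq (w : ℝ) (3 * w) (2 * w) hw0 (by positivity) (by positivity) (by nlinarith)
      rw [add_comm]
      simpa [t3] using this
  · have h1 : hf false u = w + 1 := by simp [hf]; omega
    have h2 : hf true u = w := by simp [hf]; omega
    have hw0 : (0 : ℝ) ≤ w := Nat.cast_nonneg w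
    rw [h1, h2, hw]
    cases c
    · have := mab_sq ((w : ℝ) + 1) (3 * w) (2 * w + 1) (by positivity) (by positivity)
        (by positivity) (by nlinarith)
      simpa [t3] using this
    · rw [add_comm]
      rcases Nat.lt_or_ge w 2 with hlt | hge
      · interval_cases w
        · simp [t3]
          apply Real.sqrt_le_iff.mpr
          constructor <;> norm_num
        · have e1 : Real.sqrt 6 ≤ 24495 / 10000 := by
            apply Real.sqrt_le_iff.mpr
            constructor <;> norm_num
          have e2 : 173205 / 100000 ≤ Real.sqrt 3 := by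
            apply Real.le_sqrt_of_sq_le
            norm_num
          have e3 : Real.sqrt (1 : ℝ) = 1 := Real.sqrt_one
          norm_num [t3]
          linarith
      · have hw2 : (2 : ℝ) ≤ w := by exact_mod_cast hge
        have := mab_sq (w : ℝ) (3 * (w + 1)) (2 * w + 1) hw0 (by positivity)
          (by positivity) (by nlinarith)
        simpa [t3] using this

theorem mab_dbl (B : List (Bool × ℕ)) : ∀ c : Bool,
    ph false (dbl false c B) + ph false (dbl true (!c) B) ≤ (399 / 200) * ph false B := by
  induction B with
  | nil => intro c; simp [dbl, ph]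
  | cons b B ih =>
    intro c
    obtain ⟨k, u⟩ := b
    cases k
    · have hn := mab_num u c
      cases hu : u.bodd
      · have hi := ih c
        simp [dbl, ph, hu] at hi ⊢
        linarith
      · have hi := ih (!c)
        simp [dbl, ph, hu] at hi ⊢
        linarith
    · have hi := ih (xor c u.bodd)
      simp [dbl, ph] at hi ⊢
      cases c <;> cases hu : u.bodd <;> simp [hu] at hi ⊢ <;> linarith

theorem pf_MAB : T_MAB := by
  intro n
  induction n with
  | zero => intro q; simp [tot]
  | succ n ih =>
    intro q
    have h1 := ih (nc false q)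
    have h2 := ih (nc true q)
    have e : tot (fun z => ph false z.2.2) (n + 1) q =
        tot (fun z => ph false z.2.2) n (nc false q) +
        tot (fun z => ph false z.2.2) n (nc true q) := rfl
    have hd : ph false (nc false q).2.2 + ph false (nc true q).2.2 ≤
        (399 / 200) * ph false q.2.2 := by
      obtain ⟨s, X, B⟩ := q
      have hk := mab_dbl B (pa false B)
      simp only [nc, s1, s2]
      cases s
      · simpa using hk
      · rw [add_comm]
        simpa using hk
    have hp : (0 : ℝ) < (399 / 200) ^ n := by positivity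
    have hm := mul_le_mul_of_nonneg_left hd hp.le
    rw [e, pow_succ]
    linarith

end Pool.Agent.H99.TG
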