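import Pool.Agent.H68.TG.Targets

/-!
# De Mol's tag system (problem MP_c95a35_lc): row MDB, the blocks of 12
-/

set_option autoImplicit false

open List Pool.Agent.H68.TG

namespace Pool.Agent.H99.TG

theorem mdb_num (u : ℕ) (c : Bool) :
    Real.sqrt (hf c (t3 false u)) + Real.sqrt (hf (!c) (t3 true u)) ≤ 2 * Real.sqrt u := by
  have hs : hf c (t3 false u) + hf (!c) (t3 true u) = 2 * u := by
    cases c <;> simp [hf, t3] <;> omega
  generalize hf c (t3 false u) = A at hs ⊢
  generalize hf (!c) (t3 true u) = B at hs ⊢
  have hsr : (A : ℝ) + B = 2 * u := by exact_mod_cast hs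
  have ha := Real.sq_sqrt (Nat.cast_nonneg (α := ℝ) A)
  have hb := Real.sq_sqrt (Nat.cast_nonneg (α := ℝ) B)
  have hc := Real.sq_sqrt (Nat.cast_nonneg (α := ℝ) u)
  have hc0 := Real.sqrt_nonneg (u : ℝ)
  have key : (Real.sqrt A + Real.sqrt B) ^ 2 ≤ (2 * Real.sqrt u) ^ 2 := by
    have h1 := sq_nonneg (Real.sqrt A - Real.sqrt B)
    nlinarith
  have := abs_le_of_sq_le_sq key (by positivity)
  exact (abs_le.mp this).2

theorem mdb_dbl (B : List (Bool × ℕ)) : ∀ c : Bool,
    ph true (dbl false c B) + ph true (dbl true (!c) B) ≤ 2 * ph true B := by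
  induction B with
  | nil => intro c; simp [dbl, ph]
  | cons b B ih =>
    intro c
    obtain ⟨k, u⟩ := b
    cases k
    · cases hu : u.bodd
      · have hi := ih c
        simp [dbl, ph, hu] at hi ⊢
        linarith
      · have hi := ih (!c)
        simp [dbl, ph, hu] at hi ⊢
        linarith
    · have hn := mdb_num u c
      have hi := ih (xor c u.bodd)
      simp [dbl, ph] at hi ⊢
      cases c <;> cases hu : u.bodd <;> simp [hu] at hi hn ⊢ <;> linarith

theorem pf_MDB : T_MDB := by
  intro n
  induction n with
  | zero => intro q; simp [tot]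
  | succ n ih =>
    intro q
    have h1 := ih (nc false q)
    have h2 := ih (nc true q)
    have e : tot (fun z => ph true z.2.2) (n + 1) q =
        tot (fun z => ph true z.2.2) n (nc false q) +
        tot (fun z => ph true z.2.2) n (nc true q) := rfl
    have hd : ph true (nc false q).2.2 + ph true (nc true q).2.2 ≤
        2 * ph true q.2.2 := by
      obtain ⟨s, X, B⟩ := q
      have hk := mdb_dbl B (pa false B)
      simp only [nc, s1, s2]
      cases s
      · simpa using hk
      · rw [add_comm]
        simpa using hk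
    have hp : (0 : ℝ) < 2 ^ n := by positivity
    have hm := mul_le_mul_of_nonneg_left hd hp.le
    rw [e, pow_succ]
    linarith

end Pool.Agent.H99.TG
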