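import Pool.Agent.H68.TG.Targets

/-!
# De Mol's tag system (problem MP_c95a35_lc): row MXB, the long block
-/

set_option autoImplicit false

open List Pool.Agent.H68.TG

namespace Pool.Agent.H99.TG

theorem mxb_key (X : ℝ) (hX : 0 ≤ X) :
    Real.sqrt (1 * (X + 1) / 2) + Real.sqrt (3 * (X + 1) / 2) ≤
      2 * (97 / 100) * (Real.sqrt X + 1) := by
  have hY : Real.sqrt (X + 1) ≤ Real.sqrt X + 1 := by
    apply Real.sqrt_le_iff.mpr
    refine ⟨by positivity, ?_⟩
    have h1 := Real.sq_sqrt hX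
    have h2 := Real.sqrt_nonneg X
    nlinarith
  have hs : Real.sqrt (X + 1) ^ 2 = X + 1 := Real.sq_sqrt (by linarith)
  have hs0 := Real.sqrt_nonneg (X + 1)
  have h1 : Real.sqrt (1 * (X + 1) / 2) ≤ (7072 / 10000) * Real.sqrt (X + 1) := by
    apply Real.sqrt_le_iff.mpr
    refine ⟨by positivity, ?_⟩
    rw [mul_pow, hs]
    nlinarith
  have h2 : Real.sqrt (3 * (X + 1) / 2) ≤ (12248 / 10000) * Real.sqrt (X + 1) := by
    apply Real.sqrt_le_iff.mpr
    refine ⟨by positivity, ?_⟩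
    rw [mul_pow, hs]
    nlinarith
  nlinarith

theorem mxb_nc (q : St) (hq : 0 ≤ q.2.1) :
    0 ≤ (nc false q).2.1 ∧ 0 ≤ (nc true q).2.1 ∧
    Real.sqrt (nc false q).2.1 + Real.sqrt (nc true q).2.1 ≤
      2 * (97 / 100) * (Real.sqrt q.2.1 + 1) := by
  obtain ⟨s, X, B⟩ := q
  have hX : 0 ≤ X := hq
  have hkey := mxb_key X hX
  have h3 : 0 ≤ 3 * (X + 1) / 2 := by positivity
  have h1 : 0 ≤ 1 * (X + 1) / 2 := by positivity
  cases s <;> cases hp : pa false B <;> simp [nc, s2, hp] at hkey h1 h3 ⊢ <;>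
    refine ⟨by assumption, by assumption, by linarith⟩

theorem mxb_main (n : ℕ) : ∀ q : St, 0 ≤ q.2.1 →
    tot (fun z => Real.sqrt z.2.1) n q ≤
      2 ^ n * ((97 / 100) ^ n * Real.sqrt q.2.1 + 33 * (1 - (97 / 100) ^ n)) := by
  induction n with
  | zero =>
    intro q hq
    simp [tot]
  | succ n ih =>
    intro q hq
    obtain ⟨h0, h1, h2⟩ := mxb_nc q hq
    have hf := ih (nc false q) h0
    have ht := ih (nc true q) h1
    have hk : (0 : ℝ) < (97 / 100) ^ n := by positivity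
    have h2n : (0 : ℝ) < 2 ^ n := by positivity
    have hm : (97 / 100 : ℝ) ^ n * (Real.sqrt (nc false q).2.1 + Real.sqrt (nc true q).2.1) ≤
        (97 / 100) ^ n * (2 * (97 / 100) * (Real.sqrt q.2.1 + 1)) :=
      mul_le_mul_of_nonneg_left h2 hk.le
    have e : tot (fun z => Real.sqrt z.2.1) (n + 1) q =
        tot (fun z => Real.sqrt z.2.1) n (nc false q) +
        tot (fun z => Real.sqrt z.2.1) n (nc true q) := rfl
    rw [e, pow_succ, pow_succ]
    have hb : (97 / 100 : ℝ) ^ n * Real.sqrt (nc false q).2.1 + 33 * (1 - (97 / 100) ^ n) +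
        ((97 / 100 : ℝ) ^ n * Real.sqrt (nc true q).2.1 + 33 * (1 - (97 / 100) ^ n)) ≤
        2 * ((97 / 100) ^ n * (97 / 100) * Real.sqrt q.2.1 +
          33 * (1 - (97 / 100) ^ n * (97 / 100))) := by
      nlinarith
    have hc := mul_le_mul_of_nonneg_left hb h2n.le
    linarith

theorem pf_MXB : T_MXB := by
  intro n q hq
  have h := mxb_main n q hq
  have hk : (0 : ℝ) < (97 / 100) ^ n := by positivity
  have h2n : (0 : ℝ) < 2 ^ n := by positivity
  refine h.trans (mul_le_mul_of_nonneg_left ?_ h2n.le)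
  linarith

end Pool.Agent.H99.TG
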